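import Pool.Agent.MP_9bd639_gt.G.Main

/-!
The sharp bound `(∫ σ_1) (∫ σ_2) ≤ 9 π ^ 4 / 2` for closed Riemannian three-manifolds with
positive scalar curvature.
-/

open MeasureTheory Pool.Agent.MP_3fc7f4_gt Pool.Agent.MP_9bd639_gt.H87

namespace Pool.Agent.Results.MP_9bd639_gt.Sharp

theorem result : ∀ N : PointedRiem 3, CompactSpace N.M → (∀ x, 0 < scal N x) →
    Integrable (sigma1 N) N.vol ∧ Integrable (sigma2 N) N.vol ∧
      (∫ x, sigma1 N x ∂N.vol) * ∫ x, sigma2 N x ∂N.vol ≤ 9 * Real.pi ^ 4 / 2 :=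
  Pool.Agent.MP_9bd639_gt.H88.sharp

end Pool.Agent.Results.MP_9bd639_gt.Sharp
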